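import Mathlib

namespace Pool.Agent.H.MP_7aa778_co

open Finset

/-- number of descents before index `i` -/
def D (x : ℕ → ℕ) : ℕ → ℕ
  | 0 => 0
  | i + 1 => D x i + if x (i + 1) < x i then 1 else 0

def P (n : ℕ) (x : ℕ → ℕ) (i : ℕ) : ℕ := x i + n * D x i

structure Cyc (n : ℕ) (x : ℕ → ℕ) : Prop where
  two : 2 ≤ n
  lt : ∀ i, x i < n
  per : ∀ i, x (i + n) = x i
  ne : ∀ i, x (i + 1) ≠ x i
  surj : ∀ c < n, ∃ i < n, x i = c

variable {n : ℕ} {x : ℕ → ℕ}

theorem Cyc.step (h : Cyc n x) (i : ℕ) : P n x i < P n x (i + 1) ∧ P n x (i + 1) < P n x i + n := by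
  have h1 := h.lt i
  have h2 := h.lt (i + 1)
  have h3 := h.ne i
  unfold P
  rw [D]
  split_ifs with hc
  · rw [mul_add]; omega
  · rw [add_zero]; omega

theorem Cyc.mono (h : Cyc n x) : StrictMono (P n x) := strictMono_nat_of_lt_succ fun i => (h.step i).1

theorem Cyc.Dper (h : Cyc n x) (i : ℕ) : D x (i + n) = D x i + D x n := by
  induction i with
  | zero => simp [D]
  | succ i ih =>
    rw [show i + 1 + n = (i + n) + 1 by ring, D, D, ih, show i + n + 1 = (i + 1) + n by ring,
      h.per, h.per]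
    ring

theorem Cyc.Pper (h : Cyc n x) (i : ℕ) : P n x (i + n) = P n x i + n * D x n := by
  unfold P
  rw [h.per, h.Dper]; ring

theorem Cyc.Pper' (h : Cyc n x) (i k : ℕ) : P n x (i + k * n) = P n x i + n * (k * D x n) := by
  induction k with
  | zero => simp
  | succ k ih => rw [show i + (k + 1) * n = (i + k * n) + n by ring, h.Pper, ih]; ring

theorem D_le (x : ℕ → ℕ) (i : ℕ) : D x i ≤ i := by
  induction i with
  | zero => simp [D]
  | succ i ih => rw [D]; split_ifs <;> omega

theorem D_mono (x : ℕ → ℕ) : Monotone (D x) :=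
  monotone_nat_of_le_succ fun i => by rw [D]; omega

theorem Cyc.ypos (h : Cyc n x) : 0 < D x n := by
  have h1 := h.mono (show 0 < 0 + n by have := h.two; omega)
  rw [h.Pper] at h1
  rcases Nat.eq_zero_or_pos (D x n) with h2 | h2
  · rw [h2] at h1; simp at h1
  · exact h2

theorem Cyc.hit (h : Cyc n x) (J : ℕ) (hJ : D x n ≤ J) (c : ℕ) :
    ∃ j ∈ Ico J (J + D x n), ∃ i, P n x i = n * j + c := by
  have hn := h.two
  have hy := h.ypos
  obtain ⟨i, hi, hx⟩ := h.surj (c % n) (Nat.mod_lt _ (by omega))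
  have h1 : D x i ≤ D x n := D_mono x hi.le
  have h4 := Nat.div_add_mod c n
  generalize c / n = w at h4
  have hp := h.Pper' i
  generalize D x n = y at *
  have h2 := Nat.div_add_mod (J + w + y - 1 - D x i) y
  have h3 := Nat.mod_lt (J + w + y - 1 - D x i) hy
  generalize (J + w + y - 1 - D x i) % y = z at h2 h3
  generalize (J + w + y - 1 - D x i) / y = k at h2
  refine ⟨D x i + k * y - w, ?_, i + k * n, ?_⟩
  · rw [mem_Ico, mul_comm k y]; omega
  · rw [hp]
    unfold P
    rw [hx]
    have h5 : w ≤ D x i + k * y := by rw [mul_comm k y]; omega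
    obtain ⟨e, he⟩ := Nat.exists_eq_add_of_le h5
    rw [he, Nat.add_sub_cancel_left]
    have : n * D x i + n * (k * y) = n * w + n * e := by rw [← mul_add, he, mul_add]
    omega

theorem Cyc.ex (h : Cyc n x) (c : ℕ) : ∃ i, c ≤ P n x i := ⟨c, h.mono.le_apply⟩

noncomputable def Cyc.f (h : Cyc n x) (c : ℕ) : ℕ := Nat.find (h.ex c)

theorem Cyc.lt_f (h : Cyc n x) (c i : ℕ) : i < h.f c ↔ P n x i < c := by
  unfold Cyc.f
  rw [Nat.lt_find_iff]
  constructor
  · intro h1; exact not_le.1 (h1 i le_rfl)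
  · intro h1 m hm; exact not_le.2 ((h.mono.monotone hm).trans_lt h1)

theorem Cyc.f_mono (h : Cyc n x) {c c' : ℕ} (hc : c ≤ c') : h.f c ≤ h.f c' := by
  by_contra h1
  have h2 := (h.lt_f c _).1 (not_le.1 h1)
  have h3 := (h.lt_f c' (h.f c')).2 (by omega)
  omega

theorem Cyc.f_succ (h : Cyc n x) (i : ℕ) : h.f (P n x i) + 1 ≤ h.f (P n x i + 1) := by
  have h1 := (h.lt_f (P n x i + 1) i).2 (by omega)
  have h2 : ¬ i < h.f (P n x i) := by rw [h.lt_f]; omega
  omega

theorem Cyc.sum_ge (h : Cyc n x) (J : ℕ) (hJ : D x n ≤ J) (c : ℕ) :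
    ∑ j ∈ Ico J (J + D x n), h.f (n * j) + c ≤ ∑ j ∈ Ico J (J + D x n), h.f (n * j + c) := by
  induction c with
  | zero => simp
  | succ c ih =>
    obtain ⟨j, hj, i, hi⟩ := h.hit J hJ c
    have : ∑ j ∈ Ico J (J + D x n), h.f (n * j + c) <
        ∑ j ∈ Ico J (J + D x n), h.f (n * j + (c + 1)) := by
      apply sum_lt_sum
      · intro j _; exact h.f_mono (by omega)
      · refine ⟨j, hj, ?_⟩
        have := h.f_succ i
        rw [hi] at this
        rw [← add_assoc]; omega
    omega

theorem Cyc.good (h : Cyc n x) (L : ℕ) (hL : (n - D x n) * D x n ≤ L) :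
    ∃ j, 1 ≤ j ∧ (h.f (n * j) + (n - D x n) + 1 ≤ h.f (n * j + L) ∨
      (h.f (n * j) + (n - D x n) ≤ h.f (n * j + L) ∧ ∃ i, P n x i + 1 = n * j)) := by
  by_contra hc
  push Not at hc
  have hn := h.two
  obtain ⟨j, hj, i, hi⟩ := h.hit (D x n) le_rfl (n - 1)
  have h1 := h.sum_ge (D x n + 1) (by omega) L
  have h2 : ∑ j ∈ Ico (D x n + 1) (D x n + 1 + D x n), h.f (n * j + L) <
      ∑ j ∈ Ico (D x n + 1) (D x n + 1 + D x n), (h.f (n * j) + (n - D x n)) := by
    apply sum_lt_sum
    · intro j hj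
      rw [mem_Ico] at hj
      have := (hc j (by omega)).1
      omega
    · rw [mem_Ico] at hj
      refine ⟨j + 1, by rw [mem_Ico]; omega, ?_⟩
      by_contra h3
      exact (hc (j + 1) (by omega)).2 (not_lt.1 h3) i (by rw [hi, mul_add]; omega)
  rw [sum_add_distrib, sum_const, Nat.card_Ico, smul_eq_mul, Nat.add_sub_cancel_left,
    mul_comm] at h2
  omega

/-- symbol at position `t` of the zigzag word -/
def sym (n L t : ℕ) : ℕ := if t < L then t % n else (2 * L + n - 2 - t) % n

theorem Cyc.G (h : Cyc n x) (i k : ℕ) (hik : i < k) :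
    (P n x k : ℤ) - n * k < P n x i - n * i := by
  induction k, hik using Nat.le_induction with
  | base => have := (h.step i).2; push_cast; linarith [show (P n x (i + 1) : ℤ) < P n x i + n by exact_mod_cast this]
  | succ k _ ih =>
    have := (h.step k).2
    push_cast at ih ⊢
    linarith [show (P n x (k + 1) : ℤ) < P n x k + n by exact_mod_cast this]

theorem Cyc.embed (h : Cyc n x) (L : ℕ) (hL : (n - D x n) * D x n ≤ L) :
    ∃ (p : ℕ) (t : ℕ → ℕ), (∀ i k, i < k → k < n → t i < t k) ∧ (∀ i < n, t i < 2 * L) ∧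
      ∀ i < n, sym n L (t i) = x (p + i) := by
  have hn := h.two
  obtain ⟨j, hj, hg⟩ := h.good L hL
  have hy := D_le x n
  set y := D x n with hy'
  have hp1 : 0 < h.f (n * j) := by
    rw [h.lt_f]
    have := h.lt 0
    have : n * 1 ≤ n * j := Nat.mul_le_mul_left _ hj
    simp only [P, D]; omega
  obtain ⟨q, hq⟩ : ∃ q, h.f (n * j) = q + 1 := ⟨_, (Nat.succ_pred_eq_of_pos hp1).symm⟩
  have hpr := h.f_mono (show n * j ≤ n * j + L by omega)
  obtain ⟨r', hr⟩ : ∃ r', h.f (n * j + L) = r' + 1 := ⟨h.f (n * j + L) - 1, by omega⟩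
  have a1 : P n x q < n * j := by rw [← h.lt_f]; omega
  have a2 : n * j ≤ P n x (q + 1) := by rw [← not_lt, ← h.lt_f]; omega
  have a3 : P n x r' < n * j + L := by rw [← h.lt_f]; omega
  have a4 := (h.step r').2
  have a5 := (h.step q).2
  have a6 := h.Pper q
  rw [← hy'] at a6
  have key : (-1 : ℤ) ≤ (P n x (q + n) : ℤ) - n * (q + n : ℕ) + n * (r' - j) := by
    rw [a6]
    push_cast
    rcases hg with hg | ⟨hg, i, hi⟩
    · have b1 : (q : ℤ) + n - y + 1 ≤ r' := by omega
      have b2 : (n : ℤ) * j < P n x q + n := by exact_mod_cast lt_of_le_of_lt a2 a5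
      have b3 := mul_le_mul_of_nonneg_left b1 (show (0 : ℤ) ≤ n by omega)
      linarith
    · have b0 : i = q := by
        have c1 := (h.lt_f (n * j) i).2 (by omega)
        have c2 : ¬ i < q := fun c => by have := h.mono c; omega
        omega
      have b1 : (q : ℤ) + n - y ≤ r' := by omega
      have b2 : (P n x q : ℤ) + 1 = n * j := by rw [← b0]; exact_mod_cast hi
      have b3 := mul_le_mul_of_nonneg_left b1 (show (0 : ℤ) ≤ n by omega)
      linarith
  have top : (P n x (r' + 1) : ℤ) - n * (r' + 1 : ℕ) + n * (r' - j) ≤ L - 2 := by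
    have b1 : (P n x (r' + 1) : ℤ) + 2 ≤ n * j + L + n := by exact_mod_cast (by omega : P n x (r' + 1) + 2 ≤ n * j + L + n)
    push_cast
    linarith
  set g : ℕ → ℤ := fun m => (P n x m : ℤ) - n * m + n * (r' - j) with hg'
  have gl : ∀ m, m ≤ q + n → -1 ≤ g m := by
    intro m hm
    rcases hm.eq_or_lt with e | e
    · rw [e]; exact key
    · have := h.G _ _ e; simp only [hg']; linarith
  have gu : ∀ m, r' + 1 ≤ m → g m ≤ L - 2 := by
    intro m hm
    rcases hm.eq_or_lt with e | e
    · rw [← e]; exact top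
    · have := h.G _ _ e; simp only [hg']; linarith
  have pl : ∀ i, n * j ≤ P n x (q + 1 + i) := fun i => a2.trans (h.mono.monotone (by omega))
  have pu : ∀ m, m ≤ r' → P n x m < n * j + L := fun m hm => (h.mono.monotone hm).trans_lt a3
  refine ⟨q + 1, fun i => if q + 1 + i ≤ r' then P n x (q + 1 + i) - n * j
    else (2 * L - 2 - g (q + 1 + i)).toNat, ?_, ?_, ?_⟩
  · intro i k hik hk
    have c1 := pl i
    have c2 := h.mono (show q + 1 + i < q + 1 + k by omega)
    have c3 := h.G _ _ (show q + 1 + i < q + 1 + k by omega)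
    have c4 : g (q + 1 + k) < g (q + 1 + i) := by simp only [hg']; linarith
    simp only
    split_ifs with d1 d2 d2
    · omega
    · have := pu _ d1
      have := gu (q + 1 + k) (by omega)
      omega
    · omega
    · have := gu (q + 1 + i) (by omega)
      omega
  · intro i hi
    simp only
    split_ifs with d1
    · have := pu _ d1; have := pl i; omega
    · have := gl (q + 1 + i) (by omega)
      have := gu (q + 1 + i) (by omega)
      omega
  · intro i hi
    have e0 := h.lt (q + 1 + i)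
    simp only
    split_ifs with d1
    · have c1 := pu _ d1
      have c2 := pl i
      unfold sym
      rw [if_pos (by omega)]
      have c3 : (P n x (q + 1 + i) - n * j + n * j) % n = x (q + 1 + i) := by
        rw [Nat.sub_add_cancel c2]
        unfold P
        rw [Nat.add_mul_mod_self_left, Nat.mod_eq_of_lt e0]
      rwa [Nat.add_mul_mod_self_left] at c3
    · have c1 := gl (q + 1 + i) (by omega)
      have c2 := gu (q + 1 + i) (by omega)
      unfold sym
      rw [if_neg (by omega)]
      have c3 : ((2 * L + n - 2 - (2 * L - 2 - g (q + 1 + i)).toNat : ℕ) : ℤ) = g (q + 1 + i) + n := by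
        omega
      have c4 : g (q + 1 + i) + n = x (q + 1 + i) +
          n * (D x (q + 1 + i) - (q + 1 + i : ℕ) + (r' - j) + 1) := by
        simp only [hg', P]; push_cast; ring
      have c5 : (((2 * L + n - 2 - (2 * L - 2 - g (q + 1 + i)).toNat) % n : ℕ) : ℤ) = x (q + 1 + i) := by
        rw [Int.natCast_mod, c3, c4, Int.add_mul_emod_self_left]
        exact Int.emod_eq_of_lt (by omega) (by omega)
      exact_mod_cast c5

theorem sub_of_embed {α : Type*} (a : ℕ → α) (n M : ℕ) (t : ℕ → ℕ)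
    (h1 : ∀ i k, i < k → k < n → t i < t k) (h2 : ∀ i < n, t i < M) :
    ((List.range n).map (fun i => a (t i))).Sublist ((List.range M).map a) := by
  have hs : ((List.range n).map t).Pairwise (· < ·) := by
    rw [List.pairwise_map]
    exact List.Pairwise.imp_of_mem (fun {i k} _ hk hik => h1 i k hik (List.mem_range.1 hk))
      List.pairwise_lt_range
  have : ((List.range n).map t).Sublist (List.range M) := by
    apply List.sublist_of_subperm_of_pairwise (r := (· < ·)) _ hs List.pairwise_lt_range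
    apply List.Nodup.subperm (hs.imp ne_of_lt)
    intro z hz
    obtain ⟨i, hi, rfl⟩ := List.mem_map.1 hz
    exact List.mem_range.2 (h2 i (List.mem_range.1 hi))
  have := this.map a
  rwa [List.map_map] at this

theorem rot_sub {α : Type*} (A l : List α) (p : ℕ) (h : (A.rotate p).Sublist l) :
    ∃ k, A.Sublist (l.rotate k) := by
  rw [List.rotate_eq_drop_append_take_mod, List.append_sublist_iff] at h
  obtain ⟨l1, l2, rfl, h1, h2⟩ := h
  refine ⟨l1.length, ?_⟩
  rw [List.rotate_append_length_eq]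
  have := h2.append h1
  rwa [List.take_append_drop] at this

theorem main (n : ℕ) (hn : 2 ≤ n) : ∃ l : List (Fin n), l.length ≤ n ^ 2 / 2 ∧
    ∀ σ : Equiv.Perm (Fin n), ∃ k : ℕ, List.Sublist (List.ofFn (⇑σ)) (l.rotate k) := by
  have hs : ∀ t, sym n (n ^ 2 / 4) t < n := by
    intro t; unfold sym; split_ifs <;> exact Nat.mod_lt _ (by omega)
  refine ⟨(List.range (2 * (n ^ 2 / 4))).map (fun t => ⟨_, hs t⟩), ?_, ?_⟩
  · simp only [List.length_map, List.length_range]; omega
  intro σ
  let s : ℕ → Fin n := fun i => σ ⟨i % n, Nat.mod_lt _ (by omega)⟩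
  have hc : Cyc n (fun i => (s i : ℕ)) := by
    refine ⟨hn, fun i => (s i).2, fun i => by simp [s], fun i hi => ?_, fun c hc => ?_⟩
    · have h1 := σ.injective (Fin.ext hi)
      have h2 : (i + 1) % n = i % n := congrArg Fin.val h1
      have h3 := (Nat.modEq_iff_dvd' (show i ≤ i + 1 by omega)).1 h2.symm
      have := Nat.le_of_dvd (by omega) h3
      omega
    · refine ⟨σ.symm ⟨c, hc⟩, (σ.symm ⟨c, hc⟩).2, ?_⟩
      simp [s, Nat.mod_eq_of_lt (σ.symm ⟨c, hc⟩).2]
  obtain ⟨p, t, h1, h2, h3⟩ := hc.embed (n ^ 2 / 4) (by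
    have := D_le (fun i => (s i : ℕ)) n
    obtain ⟨e, he⟩ := Nat.exists_eq_add_of_le this
    rw [Nat.le_div_iff_mul_le (by norm_num)]
    generalize D (fun i => (s i : ℕ)) n = y at he
    subst he
    rw [Nat.add_sub_cancel_left]
    nlinarith [sq_nonneg ((y : ℤ) - e)])
  apply rot_sub _ _ p
  have h4 := sub_of_embed (fun t => (⟨_, hs t⟩ : Fin n)) n _ t h1 h2
  convert h4 using 1
  apply List.ext_getElem
  · simp
  · intro i hi1 hi2
    simp only [List.length_map, List.length_range] at hi2
    simp only [List.getElem_rotate, List.getElem_ofFn, List.getElem_map, List.getElem_range,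
      List.length_ofFn]
    apply Fin.ext
    simp only [h3 i hi2, s, add_comm]

end Pool.Agent.H.MP_7aa778_co
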